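import Pool.Agent.Helper87.TC.Lib

/-!
The tangents of the family at a general point (module VT2 of `MP_39dd1a_ag`).
-/

set_option autoImplicit false

namespace Pool.Agent.Helper87.TC

open MvPolynomial Pool.Agent.Helper48.VMRT Pool.Agent.Helper87.VM

section vt2

variable {N d : ℕ}

/-- `pt c s t i` as a polynomial in two variables. -/
noncomputable def vt2_pol (c : Coef N d) (i : Fin (N + 1)) : MvPolynomial (Fin 2) ℂ :=
  ∑ j : Fin (d + 1), C (c (i, j)) * X 0 ^ (d - (j : ℕ)) * X 1 ^ (j : ℕ)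

theorem vt2_eval (c : Coef N d) (i : Fin (N + 1)) (s t : ℂ) :
    eval ![s, t] (vt2_pol c i) = pt c s t i := by
  unfold vt2_pol pt
  rw [map_sum]
  refine Finset.sum_congr rfl fun j _ => ?_
  simp

theorem vt2_chain0 (P : MvPolynomial (Fin 2) ℂ) {f g : ℂ → ℂ} {f' g' τ : ℂ}
    (hf : HasDerivAt f f' τ) (hg : HasDerivAt g g' τ) :
    HasDerivAt (fun x => eval ![f x, g x] P) (dpol P ![f τ, g τ] ![f', g']) τ := by
  refine hasDerivAt_eval P (γ := fun x => ![f x, g x]) (γ' := ![f', g']) (τ := τ) ?_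
  rw [Fin.forall_fin_two]
  exact ⟨hf, hg⟩

theorem vt2_chain (c : Coef N d) (i : Fin (N + 1)) {f g : ℂ → ℂ} {f' g' τ : ℂ}
    (hf : HasDerivAt f f' τ) (hg : HasDerivAt g g' τ) :
    HasDerivAt (fun x => pt c (f x) (g x) i) (dpol (vt2_pol c i) ![f τ, g τ] ![f', g']) τ :=
  (vt2_chain0 (vt2_pol c i) hf hg).congr_of_eventuallyEq
    (Filter.Eventually.of_forall fun x => (vt2_eval c i (f x) (g x)).symm)

theorem vt2_dps (c : Coef N d) (s t : ℂ) (i : Fin (N + 1)) :
    dps c s t i = dpol (vt2_pol c i) ![s, t] ![1, 0] := by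
  have h := vt2_chain c i (hasDerivAt_id' s) (hasDerivAt_const s t)
  exact h.deriv

theorem vt2_dpt (c : Coef N d) (s t : ℂ) (i : Fin (N + 1)) :
    dpt c s t i = dpol (vt2_pol c i) ![s, t] ![0, 1] := by
  have h := vt2_chain c i (hasDerivAt_const t s) (hasDerivAt_id' t)
  exact h.deriv

theorem vt2_has (c : Coef N d) (i : Fin (N + 1)) {f g : ℂ → ℂ} {f' g' τ : ℂ}
    (hf : HasDerivAt f f' τ) (hg : HasDerivAt g g' τ) :
    HasDerivAt (fun x => pt c (f x) (g x) i)
      (f' * dps c (f τ) (g τ) i + g' * dpt c (f τ) (g τ) i) τ := by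
  have h := vt2_chain c i hf hg
  have h2 : (![f', g'] : Fin 2 → ℂ) = f' • ![1, 0] + g' • ![0, 1] := by
    funext o
    fin_cases o <;> simp
  rw [h2, dpol_add_right, dpol_smul_right, dpol_smul_right, ← vt2_dps, ← vt2_dpt] at h
  exact h

/-- The derivatives of a reparametrized curve, at a point where it is known only up to a power. -/
theorem vt2_repar {c c1 : Coef N d} {K : ℕ} {α β γ δ s t : ℂ} (h0 : α * s + β * t = 1)
    (h1 : γ * s + δ * t = 0)
    (h : ∀ x y : ℂ, (α * x + β * y) ^ K • pt c x y =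
      (α * x + β * y) ^ K • pt c1 (α * x + β * y) (γ * x + δ * y)) :
    dps c s t = α • dps c1 1 0 + γ • dpt c1 1 0 ∧
      dpt c s t = β • dps c1 1 0 + δ • dpt c1 1 0 := by
  have hloc : ∀ x y : ℂ, α * x + β * y ≠ 0 →
      pt c x y = pt c1 (α * x + β * y) (γ * x + δ * y) := by
    intro x y hxy
    have hK := pow_ne_zero K hxy
    have e := h x y
    have e2 := congrArg (fun v => ((α * x + β * y) ^ K)⁻¹ • v) e
    simp only [smul_smul, inv_mul_cancel₀ hK, one_smul] at e2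
    exact e2
  constructor
  · funext i
    have hf : HasDerivAt (fun x : ℂ => α * x + β * t) α s := by
      have := ((hasDerivAt_id' s).const_mul α).add_const (β * t)
      rwa [mul_one] at this
    have hg : HasDerivAt (fun x : ℂ => γ * x + δ * t) γ s := by
      have := ((hasDerivAt_id' s).const_mul γ).add_const (δ * t)
      rwa [mul_one] at this
    have h2 := vt2_has c1 i hf hg
    simp only [h0, h1] at h2
    have hev : (fun x => pt c x t i) =ᶠ[nhds s]
        fun x => pt c1 (α * x + β * t) (γ * x + δ * t) i := by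
      have hc : ContinuousAt (fun x : ℂ => α * x + β * t) s := hf.continuousAt
      have hne : α * s + β * t ≠ 0 := by rw [h0]; exact one_ne_zero
      filter_upwards [hc.eventually_ne hne] with x hx
      rw [hloc x t hx]
    have h3 := (h2.congr_of_eventuallyEq hev).deriv
    exact h3
  · funext i
    have hf : HasDerivAt (fun y : ℂ => α * s + β * y) β t := by
      have := ((hasDerivAt_id' t).const_mul β).const_add (α * s)
      rwa [mul_one] at this
    have hg : HasDerivAt (fun y : ℂ => γ * s + δ * y) δ t := by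
      have := ((hasDerivAt_id' t).const_mul δ).const_add (γ * s)
      rwa [mul_one] at this
    have h2 := vt2_has c1 i hf hg
    simp only [h0, h1] at h2
    have hev : (fun y => pt c s y i) =ᶠ[nhds t]
        fun y => pt c1 (α * s + β * y) (γ * s + δ * y) i := by
      have hc : ContinuousAt (fun y : ℂ => α * s + β * y) t := hf.continuousAt
      have hne : α * s + β * t ≠ 0 := by rw [h0]; exact one_ne_zero
      filter_upwards [hc.eventually_ne hne] with y hy
      rw [hloc s y hy]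
    have h3 := (h2.congr_of_eventuallyEq hev).deriv
    exact h3

end vt2

theorem vt2_lin (D : VD) {N : ℕ} (E : Fin (N + 1) → MvPolynomial (Option (Fin D.w) × D.ν) ℂ)
    (c₀ : ℂ) (u z : Fin D.w → ℂ) (r : ℂ) : dTh2 D E c₀ u (r • z) = r • dTh2 D E c₀ u z := by
  have h : (ov 0 (r • z) : Option (Fin D.w) → ℂ) = r • ov 0 z := by
    rw [← ov_smul, mul_zero]
  unfold dTh2
  rw [h, dev_smul, seg_smul_left, seg_smul_right, ← smul_add, dev_smul]

theorem vt2_zcone {D : VD} (hD : D.Good) (a : ℂ) {z : Fin D.w → ℂ} (hz : z ∈ D.Z) :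
    a • z ∈ D.Z := by
  obtain ⟨i, hi⟩ := Set.mem_iUnion.1 hz
  exact Set.mem_iUnion.2 ⟨i, hD.Zcone i a z hi⟩

theorem st_VT2 (hUNI : ST_UNI2) (hSM : ST_SM2) (hTHR : ST_THR2) : ST_VT2 := by
  intro D M g N E X DX ε hTR u hu c₀ hc₀
  have hD : D.Good := hTR.td.good
  obtain ⟨i0⟩ := hD.ine
  obtain ⟨z0, hz0, hz00⟩ := hD.Zne i0
  have hz0Z : z0 ∈ D.Z := Set.mem_iUnion.2 ⟨i0, hz0⟩
  have h0Z : (0 : Fin D.w → ℂ) ∈ D.Z := by
    have := vt2_zcone hD 0 hz0Z
    rwa [zero_smul] at this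
  have hu0 : u ≠ 0 := by
    rintro rfl
    refine hu.mov 1 one_pos ?_ ?_
    · calc 1 < 2 := one_lt_two
        _ = 2 ^ 1 := (pow_one 2).symm
        _ ≤ 2 ^ (M + 1) := Nat.pow_le_pow_right (by norm_num) (by omega)
    · rw [map_zero, sub_zero]
      exact h0Z
  obtain ⟨Φ, hΦ⟩ := hTHR D M g N E X DX ε hTR u hu.tan c₀ hc₀
  -- the member of the family attached to `z`
  have key : ∀ z ∈ D.Z, z ≠ 0 → ∃ c ∈ H2 D M N E DX,
      (∀ s t : ℂ, s ^ 4 ^ (M + 1) • pt c s t =
        ev E (c₀ • D.gr (s • ov 1 u + t • ov 0 z))) ∧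
      SmoothAt c 1 0 ∧ pt c 1 0 = ev E (c₀ • D.gr (ov 1 u)) ∧
      (∃ a : ℂ, a ≠ 0 ∧ dpt c 1 0 = a • dTh2 D E c₀ u z) ∧
      ∃ a : ℂ, a ≠ 0 ∧ dps c 1 0 = a • ev E (c₀ • D.gr (ov 1 u)) := by
    intro z hz hz0
    obtain ⟨h1, h2, -, h4⟩ := hΦ z hz
    obtain ⟨k1, ⟨a, ha, k2⟩, a', k3⟩ := hSM D M g N E X DX ε hTR u hu c₀ hc₀ z hz hz0
      (fun i => eval z (Φ i)) h1
    refine ⟨_, h4 hz0, h1, k1, h2, ⟨a, ha, ?_⟩, a', ?_, k3⟩
    · rw [k2, vt2_lin]
    · rintro rfl
      have h5 := k1.immersive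
      rw [k3, zero_smul] at h5
      exact h5.ne_zero 0 rfl
  apply Set.Subset.antisymm
  · rintro w ⟨c, hcH, s, t, hsm, hpt, A, B, rfl⟩
    obtain ⟨z, hz, hz0, α, β, γ, δ, -, e1, e2, e3⟩ := hUNI D M g N E X DX ε hTR u c₀ hc₀ hu0 c hcH
      s t hsm.ne hpt
    obtain ⟨c1, -, h1, -, -, ⟨a, -, k2⟩, a', -, k3⟩ := key z hz hz0
    obtain ⟨d1, d2⟩ := vt2_repar (c := c) (c1 := c1) (K := 4 ^ (M + 1)) e1 e2 (by
      intro x y
      rw [e3, h1])
    refine ⟨((A * γ + B * δ) * a) • z, vt2_zcone hD _ hz, (A * α + B * β) * a', ?_⟩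
    rw [vt2_lin, d1, d2, k2, k3]
    module
  · rintro w ⟨z, hz, a, rfl⟩
    by_cases hz0 : z = 0
    · obtain ⟨c, hc, -, k1, k2, -, a', ha', k3⟩ := key z0 hz0Z hz00
      refine ⟨c, hc, 1, 0, k1, k2, a / a', 0, ?_⟩
      have h4 : dTh2 D E c₀ u z = 0 := by
        have h := vt2_lin D E c₀ u z 0
        rw [zero_smul, zero_smul] at h
        rw [hz0]
        exact h
      rw [h4, k3, smul_smul, div_mul_cancel₀ _ ha', zero_smul, zero_add, add_zero]
    · obtain ⟨c, hc, -, k1, k2, ⟨b, hb, k4⟩, a', ha', k3⟩ := key z hz hz0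
      refine ⟨c, hc, 1, 0, k1, k2, a / a', b⁻¹, ?_⟩
      rw [k3, k4, smul_smul, smul_smul, div_mul_cancel₀ _ ha', inv_mul_cancel₀ hb, one_smul]
      exact add_comm _ _

end Pool.Agent.Helper87.TC
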