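import Pool.Agent.Helper87.TC.Lib
import Pool.Agent.Helper87.TC.VTS2

/-!
Isotriviality at the general point (module ISO2 of `MP_39dd1a_ag`).
-/

set_option autoImplicit false

namespace Pool.Agent.Helper87.TC

open MvPolynomial Pool.Agent.Helper48.VMRT Pool.Agent.Helper87.VM

theorem st_ISO2 (h1 : ST_VT2) (h2 : ST_VTS2) : ST_ISO2 := by
  intro D M g N E X DX ε hTR u hu c₀ hc₀
  have hD : D.Good := hTR.td.good
  have h0Z : (0 : Fin D.w → ℂ) ∈ D.Z := by
    obtain ⟨i0⟩ := hD.ine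
    obtain ⟨z0, hz0, -⟩ := hD.Zne i0
    have := hD.Zcone i0 0 z0 hz0
    rw [zero_smul] at this
    exact Set.mem_iUnion.2 ⟨i0, this⟩
  have hu0 : u ≠ 0 := by
    rintro rfl
    refine hu.mov 1 one_pos ?_ ?_
    · calc 1 < 2 := one_lt_two
        _ = 2 ^ 1 := (pow_one 2).symm
        _ ≤ 2 ^ (M + 1) := Nat.pow_le_pow_right (by norm_num) (by omega)
    · rw [map_zero, sub_zero]
      exact h0Z
  have htan := h1 D M g N E X DX ε hTR u hu c₀ hc₀
  obtain ⟨f, hf, hfz, hbot, htop⟩ := h2 D M g N E X DX ε hTR u c₀ hc₀ hu0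
  have hv0 : ev E (c₀ • D.gr (ov 1 u)) ≠ 0 := by
    intro h
    have hz : (0 : Fin (N + 1) → ℂ) ∈ DX := by
      have h1 := hTR.res.on 0 (Or.inl (map_zero _))
      have h2 := hTR.res.dcone 0 _ h1
      rwa [zero_smul] at h2
    refine hTR.res.off (c₀ • D.gr (ov 1 u)) (yc_cone c₀ (D.gr_mem _)) (vts2_nfx hTR.td hu0 hc₀) ?_
    rw [h]
    exact hz
  set v : Fin (N + 1) → ℂ := ev E (c₀ • D.gr (ov 1 u)) with hv
  refine ⟨f, hf, hbot, ?_, ?_⟩
  · rw [tangentSpace_eq_tsp]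
    exact htop
  · have hS : tangents (H2 D M N E DX) v = {u | ∃ z ∈ D.Z, ∃ a : ℂ, u = f z + a • v} := by
      rw [htan]
      ext u'
      constructor
      · rintro ⟨z, hz, a, h⟩
        exact ⟨z, hz, a, by rw [hfz]; exact h⟩
      · rintro ⟨z, hz, a, h⟩
        exact ⟨z, hz, a, by rw [hfz] at h; exact h⟩
    rw [vmrtCone, hS]
    change ZClosed {u | ∃ z ∈ D.Z, ∃ a : ℂ, u = f z + a • v}
    let Φ : ((Fin D.w → ℂ) × ℂ) →ₗ[ℂ] (Fin (N + 1) → ℂ) :=
      f.comp (LinearMap.fst ℂ (Fin D.w → ℂ) ℂ) +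
        (LinearMap.snd ℂ (Fin D.w → ℂ) ℂ).smulRight v
    have hΦ : ∀ z a, Φ (z, a) = f z + a • v := fun z a => rfl
    have hinj : Function.Injective Φ := by
      rw [← LinearMap.ker_eq_bot, LinearMap.ker_eq_bot']
      rintro ⟨z, a⟩ h
      rw [hΦ] at h
      have h3 : f z = (-a) • v := by
        rw [neg_smul]
        exact eq_neg_of_add_eq_zero_left h
      have h4 : f z ∈ LinearMap.range f ⊓ Submodule.span ℂ {v} :=
        ⟨⟨z, rfl⟩, by
          rw [h3]; exact Submodule.smul_mem _ _ (Submodule.mem_span_singleton_self v)⟩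
      rw [hbot, Submodule.mem_bot] at h4
      rw [h4, zero_add] at h
      have h5 : a = 0 := (smul_eq_zero.1 h).resolve_right hv0
      have h6 : z = 0 := hf (by rw [h4, map_zero])
      rw [h5, h6]
      rfl
    obtain ⟨r, hr⟩ := LinearMap.exists_leftInverse_of_injective Φ (LinearMap.ker_eq_bot.2 hinj)
    have hr' : ∀ p, r (Φ p) = p := fun p => LinearMap.congr_fun hr p
    let Q : (Fin (N + 1) → ℂ) →ₗ[ℂ] (Fin D.w → ℂ) := (LinearMap.fst ℂ (Fin D.w → ℂ) ℂ).comp r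
    have hset : {u | ∃ z ∈ D.Z, ∃ a : ℂ, u = f z + a • v} =
        (LinearMap.range Φ : Set (Fin (N + 1) → ℂ)) ∩
          {x | ev (fun j => linp ((LinearMap.proj j : (Fin D.w → ℂ) →ₗ[ℂ] ℂ).comp Q)) x ∈
            D.Z} := by
      ext x
      constructor
      · rintro ⟨z, hz, a, rfl⟩
        refine ⟨⟨(z, a), hΦ z a⟩, ?_⟩
        change ev _ _ ∈ D.Z
        rw [ev_linp]
        change (r (f z + a • v)).1 ∈ D.Z
        rw [← hΦ, hr']
        exact hz
      · rintro ⟨⟨p, rfl⟩, h⟩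
        change ev _ _ ∈ D.Z at h
        rw [ev_linp] at h
        change (r (Φ p)).1 ∈ D.Z at h
        rw [hr'] at h
        exact ⟨p.1, h, p.2, rfl⟩
    rw [hset]
    exact zclosed_inter (zclosed_submodule _) (zclosed_preimage hD.ZZcl _)

end Pool.Agent.Helper87.TC
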